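import Pool.Agent.U644.PL.Defs
import Pool.Agent.U644.GI.Main

/-!
# Comparison of the Frobenius eigenvalues of two cohomology theories: lemmas
-/

set_option autoImplicit false

open Module

namespace Pool.Agent.U644.PL

universe u v w v' w'

open Pool.Agent.H914 Pool.Agent.Y143 Pool.Agent.Y163.MW Pool.Agent.Y163.MW.Coh Pool.Agent.U644.MW
  Pool.Agent.U644.GI Pool.Agent.Y136.UB

lemma isAlg : Algebra.IsAlgebraic ℚ (AlgebraicClosure ℚ) := by
  refine ⟨fun x => ?_⟩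
  obtain ⟨p, hp, h0⟩ := (AlgebraicClosure.isAlgebraic ℚ).isAlgebraic x
  refine ⟨p, hp, ?_⟩
  rw [Polynomial.aeval_def] at h0 ⊢
  rw [← h0]
  congr 1

lemma minpoly_map {Ω : Type w} [Field Ω] [CharZero Ω] (ι : AlgebraicClosure ℚ →+* Ω)
    (a : AlgebraicClosure ℚ) : minpoly ℚ (ι a) = minpoly ℚ a := by
  have h := minpoly.algHom_eq (RingHom.toRatAlgHom ι) ι.injective a
  exact h

lemma isAlgebraic_map {Ω : Type w} [Field Ω] [CharZero Ω] (ι : AlgebraicClosure ℚ →+* Ω)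
    (a : AlgebraicClosure ℚ) : IsAlgebraic ℚ (ι a) := by
  have h : IsAlgebraic ℚ a := isAlg.isAlgebraic a
  exact h.algHom (RingHom.toRatAlgHom ι)

lemma weil_map {Ω : Type w} [Field Ω] [CharZero Ω] {Ω' : Type w'} [Field Ω'] [CharZero Ω']
    (ι : AlgebraicClosure ℚ →+* Ω) (ι' : AlgebraicClosure ℚ →+* Ω') (a : AlgebraicClosure ℚ)
    {q : ℕ} {w : ℤ} (h : IsWeilNumber q w (ι a)) : IsWeilNumber q w (ι' a) := by
  refine ⟨isAlgebraic_map ι' a, fun y hy => h.2 y ?_⟩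
  rw [minpoly_map] at hy ⊢
  exact hy

/-- every algebraic number is in the image of an embedding -/
lemma exists_map {Ω : Type w} [Field Ω] [CharZero Ω] [IsAlgClosed Ω] {α : Ω}
    (h : IsAlgebraic ℚ α) (ι : AlgebraicClosure ℚ →+* Ω) : ∃ a, ι a = α := by
  have hs : Polynomial.Splits ((minpoly ℚ α).map (algebraMap ℚ (AlgebraicClosure ℚ))) :=
    IsAlgClosed.splits _
  have h1 : ((minpoly ℚ α).map (algebraMap ℚ (AlgebraicClosure ℚ))).map ι =
      (minpoly ℚ α).map (algebraMap ℚ Ω) := by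
    rw [Polynomial.map_map]
    congr 1
    exact RingHom.ext_rat _ _
  have h2 : ((minpoly ℚ α).map (algebraMap ℚ Ω)).IsRoot α := by
    rw [Polynomial.IsRoot.def, Polynomial.eval_map_algebraMap, minpoly.aeval]
  have hne : (minpoly ℚ α).map (algebraMap ℚ Ω) ≠ 0 := by
    rw [Ne, Polynomial.map_eq_zero]
    exact minpoly.ne_zero h.isIntegral
  have h3 := hs.roots_map ι
  rw [h1] at h3
  have h4 : α ∈ ((minpoly ℚ α).map (algebraMap ℚ Ω)).roots := (Polynomial.mem_roots hne).2 h2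
  rw [h3, Multiset.mem_map] at h4
  obtain ⟨a, _, ha⟩ := h4
  exact ⟨a, ha⟩

lemma exists_emb (Ω : Type w) [Field Ω] [CharZero Ω] [IsAlgClosed Ω] :
    Nonempty (AlgebraicClosure ℚ →+* Ω) :=
  have := isAlg
  ⟨(IsAlgClosed.lift (R := ℚ) (S := AlgebraicClosure ℚ) (M := Ω)).toRingHom⟩

variable {Ω : Type w} [Field Ω] [CharZero Ω] {R : Coh.{v, w} Ω} {q : ℕ}

lemma N_pc (hq : 1 < q) (hR : R.IsCoh q) {m : ℕ} {α : Ω} {x : R.V} (hx : x ∈ R.pc (m, α)) :
    R.N x ∈ R.pc (m, (q : Ω)⁻¹ * α) := by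
  have hq0 : (q : Ω) ≠ 0 := Nat.cast_ne_zero.2 (by omega)
  obtain ⟨h1, h2⟩ := Submodule.mem_inf.1 hx
  refine Submodule.mem_inf.2 ⟨hR.N_gr m x h1, ?_⟩
  have h4 : x ∈ ((q : Ω)⁻¹ • R.F).maxGenEigenspace ((q : Ω)⁻¹ * α) := by
    obtain ⟨k, hk⟩ := mem_gen.1 h2
    refine mem_gen.2 ⟨k, ?_⟩
    have e : (q : Ω)⁻¹ • R.F - algebraMap Ω (Module.End Ω R.V) ((q : Ω)⁻¹ * α) =
        (q : Ω)⁻¹ • (R.F - algebraMap Ω (Module.End Ω R.V) α) := by
      ext z
      simp only [LinearMap.sub_apply, LinearMap.smul_apply, Module.algebraMap_end_apply,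
        smul_sub, smul_smul]
    rw [e, smul_pow, LinearMap.smul_apply, hk, smul_zero]
  refine gen_map R.N (fun z => ?_) h4
  rw [LinearMap.smul_apply, map_smul, hR.N_F, smul_smul, inv_mul_cancel₀ hq0, one_smul]

lemma pc_le_exc {m : ℕ} {c : ℤ} {α : Ω} (h : IsWeilNumber q (m + c) α) :
    R.pc (m, α) ≤ R.exc q m c := by
  intro x hx
  exact Submodule.mem_iSup_of_mem α (Submodule.mem_iSup_of_mem h hx)

/-- `N` is surjective between the parts for `α` and for `q⁻¹ α` if the weight of `α` is at most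
`m + 1`. -/
lemma N_surj [IsAlgClosed Ω] (hq : 1 < q) (hR : R.IsCoh q) {m : ℕ} (h : R.MWPure q m) {c : ℤ}
    (hc : c ≤ 1) {α : Ω} (hα : IsWeilNumber q (m + c) α) :
    ∀ y ∈ R.pc (m, (q : Ω)⁻¹ * α), ∃ x ∈ R.pc (m, α), R.N x = y := by
  classical
  have hq0 : (q : Ω) ≠ 0 := Nat.cast_ne_zero.2 (by omega)
  intro y hy
  have hα' : IsWeilNumber q (m + (c - 2)) ((q : Ω)⁻¹ * α) := by
    have h3 := hα.twist (by omega : q ≠ 0) (-1)
    rwa [show (m : ℤ) + c + 2 * (-1) = m + (c - 2) by ring, zpow_neg_one] at h3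
  have hy1 : y ∈ R.exc q m (c - 2) := pc_le_exc hα' hy
  obtain ⟨a, ha⟩ : ∃ a : ℕ, c - 2 = -((a + 1 : ℕ) : ℤ) := ⟨(1 - c).toNat, by omega⟩
  rw [ha] at hy1
  obtain ⟨t, ht, hty⟩ := ((mwPure_iff hq hR m).1 h (a + 1)).2 y hy1
  have hz : R.N ((R.N ^ a) t) = y := by
    rw [← hty, pow_succ', Module.End.mul_apply]
  have hNa : ∀ (k : ℕ), ∀ x ∈ R.gr m, (R.N ^ k) x ∈ R.gr m := by
    intro k
    induction k with
    | zero => intro x hx; simpa using hx
    | succ k ih => intro x hx; rw [pow_succ, Module.End.mul_apply]; exact ih _ (hR.N_gr m x hx)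
  have hzm : (R.N ^ a) t ∈ R.gr m := hNa a t (exc_le m _ ht)
  rw [gr_eq hR m] at hzm
  obtain ⟨f, hf, hfz⟩ := (Submodule.mem_iSup_iff_exists_finsupp _ _).1 hzm
  have hfz' : ∑ β ∈ f.support, f β = (R.N ^ a) t := hfz
  -- independence
  have hind : iSupIndep (fun β : Ω => R.pc (m, (q : Ω)⁻¹ * β)) :=
    (indep_pc hR).comp (f := fun β : Ω => (m, (q : Ω)⁻¹ * β)) (fun β β' h => by
      have := (Prod.mk.inj h).2
      exact mul_left_cancel₀ (inv_ne_zero hq0) this)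
  rw [iSupIndep_iff_finsetSum_eq_zero_imp_eq_zero] at hind
  have h1 := hind (insert α f.support) (fun β => R.N (f β) - if β = α then y else 0)
    (fun β _ => by
      refine Submodule.sub_mem _ (N_pc hq hR (hf β)) ?_
      split_ifs with h2
      · rw [h2]; exact hy
      · exact Submodule.zero_mem _) (by
      rw [Finset.sum_sub_distrib, Finset.sum_ite_eq', if_pos (Finset.mem_insert_self _ _)]
      have h2 : ∑ β ∈ insert α f.support, R.N (f β) = ∑ β ∈ f.support, R.N (f β) := by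
        by_cases h3 : α ∈ f.support
        · rw [Finset.insert_eq_of_mem h3]
        · rw [Finset.sum_insert h3, Finsupp.notMem_support_iff.1 h3, map_zero, zero_add]
      rw [h2, ← map_sum, hfz', hz, sub_self]) α (Finset.mem_insert_self _ _)
  rw [if_pos rfl, sub_eq_zero] at h1
  exact ⟨f α, hf α, h1⟩

/-- The multiplicities on the invariants, for weights at most `m + 1`. -/
lemma mult_low [IsAlgClosed Ω] (hq : 1 < q) (hR : R.IsCoh q) {m : ℕ} (h : R.MWPure q m) {c : ℤ}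
    (hc : c ≤ 1) {α : Ω} (hα : IsWeilNumber q (m + c) α) :
    mult (invariants R m) R.F α + mult (R.gr m) R.F ((q : Ω)⁻¹ * α) = mult (R.gr m) R.F α := by
  have := hR.finite
  let f : R.pc (m, α) →ₗ[Ω] R.pc (m, (q : Ω)⁻¹ * α) := R.N.restrict fun x hx => N_pc hq hR hx
  have hsurj : Function.Surjective f := by
    intro y
    obtain ⟨x, hx, hxy⟩ := N_surj hq hR h hc hα y y.2
    exact ⟨⟨x, hx⟩, Subtype.ext hxy⟩
  have h1 := LinearMap.finrank_range_add_finrank_ker f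
  rw [LinearMap.range_eq_top.2 hsurj, finrank_top] at h1
  have h2 : (LinearMap.ker f).map (R.pc (m, α)).subtype =
      (invariants R m ⊓ R.F.maxGenEigenspace α : Submodule Ω R.V) := by
    ext x
    simp only [Submodule.mem_map, LinearMap.mem_ker, Submodule.mem_inf, invariants]
    constructor
    · rintro ⟨y, hy, rfl⟩
      obtain ⟨h3, h4⟩ := Submodule.mem_inf.1 y.2
      exact ⟨⟨h3, congrArg Subtype.val hy⟩, h4⟩
    · rintro ⟨⟨h3, h4⟩, h5⟩
      exact ⟨⟨x, Submodule.mem_inf.2 ⟨h3, h5⟩⟩, Subtype.ext h4, rfl⟩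
  have h3 : finrank Ω (LinearMap.ker f) = mult (invariants R m) R.F α := by
    unfold mult
    rw [← h2]
    exact (Submodule.finrank_map_subtype_eq _ _).symm
  rw [h3] at h1
  show mult (invariants R m) R.F α + finrank Ω (R.pc (m, (q : Ω)⁻¹ * α)) =
    finrank Ω (R.pc (m, α))
  omega

/-- The multiplicities on the invariants vanish for weights larger than `m`. -/
lemma mult_high [IsAlgClosed Ω] (hq : 1 < q) (hR : R.IsCoh q) {m : ℕ} (h : R.MWPure q m) {c : ℤ}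
    (hc : 1 ≤ c) {α : Ω} (hα : IsWeilNumber q (m + c) α) : mult (invariants R m) R.F α = 0 := by
  unfold mult
  have h1 : (invariants R m ⊓ R.F.maxGenEigenspace α : Submodule Ω R.V) = ⊥ := by
    rw [Submodule.eq_bot_iff]
    intro x hx
    obtain ⟨h2, h3⟩ := Submodule.mem_inf.1 hx
    obtain ⟨h4, h5⟩ := Submodule.mem_inf.1 h2
    have h6 : x ∈ R.exc q m c := pc_le_exc hα (Submodule.mem_inf.2 ⟨h4, h3⟩)
    obtain ⟨a, rfl⟩ : ∃ a : ℕ, c = (a : ℤ) := ⟨c.toNat, by omega⟩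
    obtain ⟨b, rfl⟩ : ∃ b, a = b + 1 := ⟨a - 1, by omega⟩
    refine ((mwPure_iff hq hR m).1 h (b + 1)).1 x h6 ?_
    rw [pow_succ, Module.End.mul_apply, LinearMap.mem_ker.1 h5, map_zero]
  rw [h1, finrank_bot]

lemma mult_zero (hR : R.IsCoh q) {m : ℕ} {α : Ω} (h : ¬ ∃ w : ℤ, IsWeilNumber q w α) :
    mult (invariants R m) R.F α = 0 := by
  unfold mult
  have h1 : (invariants R m ⊓ R.F.maxGenEigenspace α : Submodule Ω R.V) = ⊥ := by
    rw [Submodule.eq_bot_iff]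
    intro x hx
    obtain ⟨h2, h3⟩ := Submodule.mem_inf.1 hx
    obtain ⟨h4, _⟩ := Submodule.mem_inf.1 h2
    have h5 : x ∈ R.pc (m, α) := Submodule.mem_inf.2 ⟨h4, h3⟩
    rw [pc_eq_bot hR h] at h5
    exact (Submodule.mem_bot Ω).1 h5
  rw [h1, finrank_bot]

variable {Ω' : Type w'} [Field Ω'] [CharZero Ω'] {R' : Coh.{v', w'} Ω'}

/-- Under purity the Euler factors are determined by the Frobenius polynomials. -/
lemma sameEuler_of_sameFrobenius [IsAlgClosed Ω] [IsAlgClosed Ω'] (hq : 1 < q) (hR : R.IsCoh q)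
    (hR' : R'.IsCoh q) (h : ∀ m, R.MWPure q m) (h' : ∀ m, R'.MWPure q m)
    (hs : SameFrobenius R R') : SameEuler R R' := by
  intro m ι ι' a
  by_cases hw : ∃ w : ℤ, IsWeilNumber q w (ι a)
  · obtain ⟨w, hw⟩ := hw
    have hw' := weil_map ι ι' a hw
    have e : w = m + (w - m) := by ring
    rw [e] at hw hw'
    rcases le_or_gt (w - m) 1 with hc | hc
    · have h1 := mult_low hq hR (h m) hc hw
      have h2 := mult_low hq hR' (h' m) hc hw'
      have h3 := hs m ι ι' a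
      have h4 := hs m ι ι' ((q : AlgebraicClosure ℚ)⁻¹ * a)
      rw [map_mul, map_mul, map_inv₀, map_inv₀, map_natCast, map_natCast] at h4
      omega
    · rw [mult_high hq hR (h m) (by omega) hw, mult_high hq hR' (h' m) (by omega) hw']
  · have hw' : ¬ ∃ w : ℤ, IsWeilNumber q w (ι' a) := by
      rintro ⟨w, h1⟩
      exact hw ⟨w, weil_map ι' ι a h1⟩
    rw [mult_zero hR hw, mult_zero hR' hw']

/-- The bound for the weights of the invariants is determined by the Euler factors. -/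
lemma bounded_of_sameEuler [IsAlgClosed Ω] [IsAlgClosed Ω'] (hR : R.IsCoh q)
    (hR' : R'.IsCoh q) (hs : SameEuler R R') (h : InvariantsBounded R q) :
    InvariantsBounded R' q := by
  have := hR.finite
  have := hR'.finite
  intro m α x hx hx0 hN hF
  obtain ⟨w, hw⟩ := hR'.weil m α x hx hx0 hF
  obtain ⟨ι⟩ := exists_emb Ω
  obtain ⟨ι'⟩ := exists_emb Ω'
  obtain ⟨a, rfl⟩ := exists_map hw.1 ι'
  have h1 := hs m ι ι' a
  have h2 : mult (invariants R' m) R'.F (ι' a) ≠ 0 := by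
    unfold mult
    intro h3
    rw [Submodule.finrank_eq_zero] at h3
    have h4 : x ∈ (invariants R' m ⊓ R'.F.maxGenEigenspace (ι' a) : Submodule Ω' R'.V) :=
      Submodule.mem_inf.2 ⟨Submodule.mem_inf.2 ⟨hx, LinearMap.mem_ker.2 hN⟩,
        (Module.End.mem_maxGenEigenspace _ _ _).2 ⟨1, by simp [hF]⟩⟩
    rw [h3] at h4
    exact hx0 ((Submodule.mem_bot Ω').1 h4)
  have h3 : (invariants R m ⊓ R.F.maxGenEigenspace (ι a) : Submodule Ω R.V) ≠ ⊥ := by
    intro h4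
    apply h2
    rw [← h1]
    unfold mult
    rw [h4, finrank_bot]
  obtain ⟨y, hy, hy0⟩ := Submodule.exists_mem_ne_zero_of_ne_bot h3
  obtain ⟨h5, h6⟩ := Submodule.mem_inf.1 hy
  have hS : ∀ x ∈ invariants R m, R.F x ∈ invariants R m := by
    intro x hx
    obtain ⟨h1, h2⟩ := Submodule.mem_inf.1 hx
    refine Submodule.mem_inf.2 ⟨hR.F_gr _ x h1, ?_⟩
    rw [LinearMap.mem_ker] at h2 ⊢
    have := hR.N_F x
    rw [this, h2, map_zero, smul_zero]
  obtain ⟨z, hz, hz0, hFz⟩ := exists_eigen_of_gen hS h5 h6 hy0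
  obtain ⟨h7, h8⟩ := Submodule.mem_inf.1 hz
  obtain ⟨w', hw', hw''⟩ := h m (ι a) z h7 hz0 (LinearMap.mem_ker.1 h8) hFz
  exact ⟨w', hw', weil_map ι ι' a hw''⟩

lemma SameEuler.symm (hs : SameEuler R R') : SameEuler R' R := fun m ι ι' a => (hs m ι' ι a).symm

section main

variable {K : Type u} [Field K] {T : Theory.{u, v, w} K Ω} {T' : Theory.{u, v', w'} K Ω'}

theorem main [IsAlgClosed Ω] [IsAlgClosed Ω'] (hq : 1 < q) (hT : T.IsLocal q) (hT' : T'.IsLocal q)
    (hW : ∀ X : SmVar.{u} K, WeightRange (T.H X) q X.dim)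
    (hW' : ∀ X : SmVar.{u} K, WeightRange (T'.H X) q X.dim) (Z : SmVar.{u} K)
    (hZ : IsTest (T.H Z) q) (hZ' : IsTest (T'.H Z) q) (X : SmVar.{u} K) :
    (SameEuler (T.H (times X Z (X.dim - 1))) (T'.H (times X Z (X.dim - 1))) →
      ((∀ m, (T.H X).MWPure q m) ↔ ∀ m, (T'.H X).MWPure q m)) ∧
    ((∀ m, (T.H X).MWPure q m) → (∀ m, (T'.H X).MWPure q m) → ∀ n,
      SameFrobenius (T.H (times X Z n)) (T'.H (times X Z n)) →
      SameEuler (T.H (times X Z n)) (T'.H (times X Z n))) := by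
  constructor
  · intro h
    have h1 := (MW.main hT hq X Z (hW X) hZ).out 0 2
    have h2 := (MW.main hT' hq X Z (hW' X) hZ').out 0 2
    rw [h1, h2]
    exact ⟨bounded_of_sameEuler (hT.coh _) (hT'.coh _) h,
      bounded_of_sameEuler (hT'.coh _) (hT.coh _) h.symm⟩
  · intro h h' n hs
    exact sameEuler_of_sameFrobenius hq (hT.coh _) (hT'.coh _) (pure_times hT hq hW Z hZ X h n)
      (pure_times hT' hq hW' Z hZ' X h' n) hs

end main

end Pool.Agent.U644.PL
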