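import Pool.Agent.U644.MW.Defs

/-!
# Comparison of the Frobenius eigenvalues of two cohomology theories
-/

set_option autoImplicit false

open Module

namespace Pool.Agent.U644.PL

universe u v w v' w'

open Pool.Agent.H914 Pool.Agent.Y143 Pool.Agent.Y163.MW

section plain

variable {Ω : Type w} [Field Ω] {V : Type v} [AddCommGroup V] [Module Ω V]

/-- The multiplicity of `α` as a root of the characteristic polynomial of `F` on the stable
subspace `S`. -/
noncomputable def mult (S : Submodule Ω V) (F : Module.End Ω V) (α : Ω) : ℕ :=
  finrank Ω (S ⊓ F.maxGenEigenspace α : Submodule Ω V)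

variable {Ω' : Type w'} [Field Ω'] {V' : Type v'} [AddCommGroup V'] [Module Ω' V']

/-- For all embeddings of the field of the algebraic numbers into `Ω` and into `Ω'`, the algebraic
number `a` has the same multiplicity for `F` on `S` and for `F'` on `S'`. If all the eigenvalues are
algebraic this says that the two characteristic polynomials have rational coefficients and
coincide. -/
def SamePolynomial (S : Submodule Ω V) (F : Module.End Ω V) (S' : Submodule Ω' V')
    (F' : Module.End Ω' V') : Prop :=
  ∀ (ι : AlgebraicClosure ℚ →+* Ω) (ι' : AlgebraicClosure ℚ →+* Ω') (a : AlgebraicClosure ℚ),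
    mult S F (ι a) = mult S' F' (ι' a)

end plain

variable {Ω : Type w} [Field Ω]

/-- The inertia invariants of `H^m`: the kernel of `N`. -/
def invariants (R : Coh.{v, w} Ω) (m : ℕ) : Submodule Ω R.V := R.gr m ⊓ LinearMap.ker R.N

variable {Ω' : Type w'} [Field Ω']

/-- The characteristic polynomials of Frobenius on all the `H^m` agree. -/
def SameFrobenius (R : Coh.{v, w} Ω) (R' : Coh.{v', w'} Ω') : Prop :=
  ∀ m, SamePolynomial (R.gr m) R.F (R'.gr m) R'.F

/-- The local Euler factors agree: the characteristic polynomials of Frobenius on the inertia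
invariants of all the `H^m`. -/
def SameEuler (R : Coh.{v, w} Ω) (R' : Coh.{v', w'} Ω') : Prop :=
  ∀ m, SamePolynomial (invariants R m) R.F (invariants R' m) R'.F

end Pool.Agent.U644.PL
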